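import Mathlib

/-!
# Linear messages over small fields do not recognise cographs in one round

Q1 of MP_07573f_lc asks for a deterministic one-round protocol with messages of `O(log n)` bits
which recognises cographs. Here protocols are considered in which every vertex `i` sends `k`
elements of a prime field `F_p`, each a linear function of its input vector `x_i` (with arbitrary
coefficients depending on `n`, `i` and the coordinate), and the referee is arbitrary. It is proved
that such a protocol is correct only if `n ≤ 4 k (p - 1) + 3`. So a message has at least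
`(n - 3) log p / (4 (p - 1))` bits: linearly many if `p` is bounded, and messages of
`O(log n)` bits are impossible unless `p` is of order at least `n / log n`.

Proof: by the theorem of Chevalley and Warning there is a nonempty set `X` of edges between two
disjoint sets of `m` vertices which is invisible to all vertices. Adding `X` to the disjoint union
of two stars with these sets of leaves creates an induced path with four vertices.
-/

namespace Pool.Agent.Results.MP_07573f_lc.LinearMessages

open MvPolynomial

/-- `G` contains an induced path `a - b - c - d`. -/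
def HasInducedP4 {n : ℕ} (G : SimpleGraph (Fin n)) : Prop :=
  ∃ a b c d : Fin n, a ≠ c ∧ a ≠ d ∧ b ≠ d ∧ G.Adj a b ∧ G.Adj b c ∧ G.Adj c d ∧
    ¬ G.Adj a c ∧ ¬ G.Adj b d ∧ ¬ G.Adj a d

open Classical in
/-- The messages of a linear protocol with `k` elements of `F_p` per message: the coordinate `c`
of the message of `i` is `∑ α_{i,j,c}`, the sum over the closed neighbourhood of `i`. -/
noncomputable def messages {n k p : ℕ} (α : Fin n → Fin n → Fin k → ZMod p)
    (G : SimpleGraph (Fin n)) (i : Fin n) (c : Fin k) : ZMod p :=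
  ∑ j, if G.Adj i j ∨ i = j then α i j c else 0

/-- The linear protocol with coefficients `α` and referee `g` solves P4-INDUCED SUBGRAPH on the
vertex set `{1, …, n}`. -/
def Solves {n k p : ℕ} (α : Fin n → Fin n → Fin k → ZMod p)
    (g : (Fin n → Fin k → ZMod p) → Prop) : Prop :=
  ∀ G : SimpleGraph (Fin n), g (messages α G) ↔ HasInducedP4 G

/-- A nonempty set of pairs whose sums in all rows and columns vanish. -/
theorem exists_invisible {p : ℕ} [Fact p.Prime] {m k : ℕ} (h : 2 * k * (p - 1) < m)
    (A B : Fin m → Fin m → Fin k → ZMod p) :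
    ∃ x : Fin m → Fin m → Prop, (∃ u v, x u v) ∧
      (∀ u c, ∑ v, (open Classical in if x u v then A u v c else 0) = 0) ∧
      ∀ v c, ∑ u, (open Classical in if x u v then B u v c else 0) = 0 := by
  classical
  have hp := (Fact.out : p.Prime)
  let f : Bool × Fin m × Fin k → MvPolynomial (Fin m × Fin m) (ZMod p) := fun b =>
    if b.1 then ∑ v, C (A b.2.1 v b.2.2) * X (b.2.1, v) ^ (p - 1)
    else ∑ u, C (B u b.2.1 b.2.2) * X (u, b.2.1) ^ (p - 1)
  have hterm : ∀ (a : ZMod p) (e : Fin m × Fin m),
      (C a * X e ^ (p - 1) : MvPolynomial (Fin m × Fin m) (ZMod p)).totalDegree ≤ p - 1 := by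
    intro a e
    refine (totalDegree_mul _ _).trans ?_
    rw [totalDegree_C, totalDegree_X_pow]
    omega
  have hdeg : ∀ b, (f b).totalDegree ≤ p - 1 := by
    intro b
    simp only [f]
    split_ifs
    · exact totalDegree_finsetSum_le fun v _ => hterm _ _
    · exact totalDegree_finsetSum_le fun v _ => hterm _ _
  have hsum : ∑ b ∈ (Finset.univ : Finset (Bool × Fin m × Fin k)), (f b).totalDegree <
      Fintype.card (Fin m × Fin m) := by
    calc _ ≤ ∑ _b ∈ (Finset.univ : Finset (Bool × Fin m × Fin k)), (p - 1) :=
          Finset.sum_le_sum fun b _ => hdeg b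
      _ = (2 * k * (p - 1)) * m := by simp; ring
      _ < m * m := Nat.mul_lt_mul_of_pos_right h (by omega)
      _ = _ := by simp
  have hdvd := char_dvd_card_solutions_of_sum_lt (K := ZMod p) p hsum
  have h0 : ∀ b ∈ (Finset.univ : Finset (Bool × Fin m × Fin k)),
      eval (0 : Fin m × Fin m → ZMod p) (f b) = 0 := by
    intro b _
    have : p - 1 ≠ 0 := by have := hp.two_le; omega
    simp only [f]
    split_ifs <;> simp [this]
  obtain ⟨x, hx, hne⟩ : ∃ x : Fin m × Fin m → ZMod p,
      (∀ b ∈ (Finset.univ : Finset (Bool × Fin m × Fin k)), eval x (f b) = 0) ∧ x ≠ 0 := by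
    by_contra hcon
    push Not at hcon
    clear_value f
    have hone : ∀ I : Fintype {x : Fin m × Fin m → ZMod p //
        ∀ b ∈ (Finset.univ : Finset (Bool × Fin m × Fin k)), eval x (f b) = 0},
        @Fintype.card _ I = 1 := fun I =>
      Fintype.card_eq_one_iff.2 ⟨⟨0, h0⟩, fun y => Subtype.ext (hcon y.1 y.2)⟩
    rw [hone] at hdvd
    exact hp.one_lt.ne' (Nat.dvd_one.1 hdvd)
  have hx0 : x ≠ 0 := hne
  have key : ∀ (e : Fin m × Fin m) (a : ZMod p),
      a * x e ^ (p - 1) = if x e ≠ 0 then a else 0 := by
    intro e a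
    have : p - 1 ≠ 0 := by have := hp.two_le; omega
    split_ifs with he
    · rw [ZMod.pow_card_sub_one_eq_one he, mul_one]
    · rw [not_not] at he
      rw [he, zero_pow this, mul_zero]
  refine ⟨fun u v => x (u, v) ≠ 0, ?_, ?_, ?_⟩
  · by_contra hcon
    push Not at hcon
    exact hx0 (funext fun e => hcon e.1 e.2)
  · intro u c
    have := hx (true, u, c) (Finset.mem_univ _)
    simp only [f, if_true, map_sum, map_mul, eval_C, map_pow, eval_X, key] at this
    refine Eq.trans (Finset.sum_congr rfl fun v _ => ?_) this
    by_cases hh : x (u, v) = 0 <;> simp [hh]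
  · intro v c
    have := hx (false, v, c) (Finset.mem_univ _)
    simp only [f, Bool.false_eq_true, if_false, map_sum, map_mul, eval_C, map_pow, eval_X,
      key] at this
    refine Eq.trans (Finset.sum_congr rfl fun u _ => ?_) this
    by_cases hh : x (u, v) = 0 <;> simp [hh]

/-- The edges of the two stars and of `X`. -/
def E (m : ℕ) (X : ℕ → ℕ → Prop) (i j : ℕ) : Prop :=
  (i < m ∧ j = 2 * m) ∨ (m ≤ i ∧ i < 2 * m ∧ j = 2 * m + 1) ∨
    (i < m ∧ m ≤ j ∧ j < 2 * m ∧ X i (j - m))

/-- Two stars and the edges of `X` between their leaves. -/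
def stars (n m : ℕ) (X : ℕ → ℕ → Prop) : SimpleGraph (Fin n) where
  Adj i j := E m X i j ∨ E m X j i
  symm := ⟨fun _ _ h => h.symm⟩
  loopless := ⟨fun i h => by
    rcases h with h | h <;> (unfold E at h; omega)⟩

theorem nbr {n m : ℕ} {i j : Fin n} (h : (stars n m fun _ _ => False).Adj i j) :
    (i.1 < m ∧ j.1 = 2 * m) ∨ (m ≤ i.1 ∧ i.1 < 2 * m ∧ j.1 = 2 * m + 1) ∨
      (i.1 = 2 * m ∧ j.1 < m) ∨ (i.1 = 2 * m + 1 ∧ m ≤ j.1 ∧ j.1 < 2 * m) := by
  rcases h with (h | h | h) | (h | h | h)
  · exact Or.inl h
  · exact Or.inr (Or.inl h)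
  · exact h.2.2.2.elim
  · exact Or.inr (Or.inr (Or.inl ⟨h.2, h.1⟩))
  · exact Or.inr (Or.inr (Or.inr ⟨h.2.2, h.1, h.2.1⟩))
  · exact h.2.2.2.elim

theorem not_p4 (n m : ℕ) : ¬ HasInducedP4 (stars n m fun _ _ => False) := by
  rintro ⟨a, b, c, d, h1, h2, h3, h4, h5, h6, -⟩
  have n1 : a.1 ≠ c.1 := fun h => h1 (Fin.ext h)
  have n3 : b.1 ≠ d.1 := fun h => h3 (Fin.ext h)
  have k4 := nbr h4.symm
  have k5 := nbr h5
  have k5' := nbr h5.symm
  have k6 := nbr h6
  clear h1 h2 h3 h4 h5 h6
  have hb : 2 * m ≤ b.1 := by clear k6 k5' n3; omega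
  have hc : 2 * m ≤ c.1 := by clear k4 k5 n1; omega
  clear k4 k6 k5'
  omega

theorem p4 {n m : ℕ} (hn : 2 * m + 2 ≤ n) {X : ℕ → ℕ → Prop} {u v : ℕ} (hu : u < m) (hv : v < m)
    (h : X u v) : HasInducedP4 (stars n m X) := by
  refine ⟨⟨2 * m, by omega⟩, ⟨u, by omega⟩, ⟨m + v, by omega⟩, ⟨2 * m + 1, by omega⟩, ?_⟩
  have e : m + v - m = v := by omega
  refine ⟨?_, ?_, ?_, ?_, ?_, ?_, ?_, ?_, ?_⟩
  · simp only [ne_eq, Fin.mk.injEq]; omega
  · simp only [ne_eq, Fin.mk.injEq]; omega
  · simp only [ne_eq, Fin.mk.injEq]; omega
  · right; left; exact ⟨hu, rfl⟩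
  · left; right; right
    refine ⟨hu, ?_, ?_, ?_⟩
    · show m ≤ m + v; omega
    · show m + v < 2 * m; omega
    · show X u (m + v - m); rw [e]; exact h
  · left; right; left
    refine ⟨?_, ?_, rfl⟩
    · show m ≤ m + v; omega
    · show m + v < 2 * m; omega
  · simp only [stars, E]; omega
  · simp only [stars, E]; omega
  · simp only [stars, E]; omega

theorem messages_eq {n m k p : ℕ} (hn : 2 * m + 2 ≤ n) (α : Fin n → Fin n → Fin k → ZMod p)
    (x : Fin m → Fin m → Prop)
    (h1 : ∀ u c, ∑ v, (open Classical in if x u v then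
      α ⟨u.1, by omega⟩ ⟨m + v.1, by omega⟩ c else 0) = 0)
    (h2 : ∀ v c, ∑ u, (open Classical in if x u v then
      α ⟨m + v.1, by omega⟩ ⟨u.1, by omega⟩ c else 0) = 0) :
    messages α (stars n m fun i j => ∃ (hi : i < m) (hj : j < m), x ⟨i, hi⟩ ⟨j, hj⟩) =
      messages α (stars n m fun _ _ => False) := by
  classical
  funext i c
  unfold messages
  rw [← sub_eq_zero, ← Finset.sum_sub_distrib]
  by_cases hi : i.1 < m
  · refine Eq.trans ?_ (h1 ⟨i.1, hi⟩ c)
    symm
    refine Fintype.sum_of_injective (fun v : Fin m => (⟨m + v.1, by omega⟩ : Fin n)) ?_ _ _ ?_ ?_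
    · intro a b hab
      simp only [Fin.mk.injEq] at hab
      exact Fin.ext (by omega)
    · intro j hj
      have hj' : ¬ (m ≤ j.1 ∧ j.1 < 2 * m) := by
        rintro ⟨ha, hb⟩
        exact hj ⟨⟨j.1 - m, by omega⟩, Fin.ext (by show m + (j.1 - m) = j.1; omega)⟩
      have e1 : ((stars n m fun i j => ∃ (hi : i < m) (hj : j < m), x ⟨i, hi⟩ ⟨j, hj⟩).Adj i j ∨
          i = j) ↔ ((stars n m fun _ _ => False).Adj i j ∨ i = j) := by
        simp only [stars, E, and_false, or_false]
        constructor
        · rintro ((h | h) | h)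
          · rcases h with h | h | h
            · exact Or.inl (Or.inl (Or.inl h))
            · exact Or.inl (Or.inl (Or.inr h))
            · exact absurd ⟨h.2.1, h.2.2.1⟩ hj'
          · rcases h with h | h | h
            · exact Or.inl (Or.inr (Or.inl h))
            · exact Or.inl (Or.inr (Or.inr h))
            · omega
          · exact Or.inr h
        · rintro ((h | h) | h)
          · rcases h with h | h
            · exact Or.inl (Or.inl (Or.inl h))
            · exact Or.inl (Or.inl (Or.inr (Or.inl h)))
          · rcases h with h | h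
            · exact Or.inl (Or.inr (Or.inl h))
            · exact Or.inl (Or.inr (Or.inr (Or.inl h)))
          · exact Or.inr h
      by_cases hh : (stars n m fun _ _ => False).Adj i j ∨ i = j
      · rw [if_pos hh, if_pos (e1.2 hh), sub_self]
      · rw [if_neg hh, if_neg (fun h => hh (e1.1 h)), sub_self]
    · intro v
      have hne : ¬ ((stars n m fun _ _ => False).Adj i ⟨m + v.1, by omega⟩ ∨
          i = ⟨m + v.1, by omega⟩) := by
        simp only [stars, E, and_false, or_false, Fin.ext_iff]
        omega
      rw [if_neg hne, sub_zero]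
      refine if_congr ?_ rfl rfl
      simp only [stars, E, Fin.ext_iff]
      constructor
      · intro h
        refine Or.inl (Or.inl (Or.inr (Or.inr ⟨hi, by omega, by omega, hi, by omega, ?_⟩)))
        have : (⟨m + v.1 - m, by omega⟩ : Fin m) = v := Fin.ext (by show m + v.1 - m = v.1; omega)
        rw [this]; exact h
      · rintro ((h | h) | h)
        · rcases h with h | h | h
          · omega
          · omega
          · obtain ⟨_, _, _, _, hj2, h⟩ := h
            have : (⟨m + v.1 - m, hj2⟩ : Fin m) = v := Fin.ext (by show m + v.1 - m = v.1; omega)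
            rw [this] at h; exact h
        · rcases h with h | h | h <;> omega
        · omega
  · by_cases hi2 : i.1 < 2 * m
    · refine Eq.trans ?_ (h2 ⟨i.1 - m, by omega⟩ c)
      symm
      have hii : (⟨m + (i.1 - m), by omega⟩ : Fin n) = i := Fin.ext (by show m + (i.1 - m) = i.1; omega)
      refine Fintype.sum_of_injective (fun v : Fin m => (⟨v.1, by omega⟩ : Fin n)) ?_ _ _ ?_ ?_
      · intro a b hab
        simp only [Fin.mk.injEq] at hab
        exact Fin.ext hab
      · intro j hj
        have hj' : ¬ (j.1 < m) := by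
          intro ha
          exact hj ⟨⟨j.1, by omega⟩, Fin.ext rfl⟩
        have e1 : ((stars n m fun i j => ∃ (hi : i < m) (hj : j < m), x ⟨i, hi⟩ ⟨j, hj⟩).Adj i j ∨
            i = j) ↔ ((stars n m fun _ _ => False).Adj i j ∨ i = j) := by
          simp only [stars, E, and_false, or_false]
          constructor
          · rintro ((h | h) | h)
            · rcases h with h | h | h
              · exact Or.inl (Or.inl (Or.inl h))
              · exact Or.inl (Or.inl (Or.inr h))
              · omega
            · rcases h with h | h | h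
              · exact Or.inl (Or.inr (Or.inl h))
              · exact Or.inl (Or.inr (Or.inr h))
              · omega
            · exact Or.inr h
          · rintro ((h | h) | h)
            · rcases h with h | h
              · exact Or.inl (Or.inl (Or.inl h))
              · exact Or.inl (Or.inl (Or.inr (Or.inl h)))
            · rcases h with h | h
              · exact Or.inl (Or.inr (Or.inl h))
              · exact Or.inl (Or.inr (Or.inr (Or.inl h)))
            · exact Or.inr h
        by_cases hh : (stars n m fun _ _ => False).Adj i j ∨ i = j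
        · rw [if_pos hh, if_pos (e1.2 hh), sub_self]
        · rw [if_neg hh, if_neg (fun h => hh (e1.1 h)), sub_self]
      · intro v
        have hne : ¬ ((stars n m fun _ _ => False).Adj i ⟨v.1, by omega⟩ ∨
            i = ⟨v.1, by omega⟩) := by
          simp only [stars, E, and_false, or_false, Fin.ext_iff]
          omega
        rw [if_neg hne, sub_zero, hii]
        refine if_congr ?_ rfl rfl
        simp only [stars, E, Fin.ext_iff]
        constructor
        · intro h
          exact Or.inl (Or.inr (Or.inr (Or.inr ⟨v.2, by omega, hi2, v.2, by omega, h⟩)))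
        · rintro ((h | h) | h)
          · rcases h with h | h | h <;> omega
          · rcases h with h | h | h
            · omega
            · omega
            · obtain ⟨_, _, _, _, _, h⟩ := h
              exact h
          · omega
    · refine Finset.sum_eq_zero fun j _ => ?_
      have e1 : ((stars n m fun i j => ∃ (hi : i < m) (hj : j < m), x ⟨i, hi⟩ ⟨j, hj⟩).Adj i j ∨
          i = j) ↔ ((stars n m fun _ _ => False).Adj i j ∨ i = j) := by
        simp only [stars, E, and_false, or_false]
        constructor
        · rintro ((h | h) | h)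
          · rcases h with h | h | h
            · exact Or.inl (Or.inl (Or.inl h))
            · exact Or.inl (Or.inl (Or.inr h))
            · omega
          · rcases h with h | h | h
            · exact Or.inl (Or.inr (Or.inl h))
            · exact Or.inl (Or.inr (Or.inr h))
            · omega
          · exact Or.inr h
        · rintro ((h | h) | h)
          · rcases h with h | h
            · exact Or.inl (Or.inl (Or.inl h))
            · exact Or.inl (Or.inl (Or.inr (Or.inl h)))
          · rcases h with h | h
            · exact Or.inl (Or.inr (Or.inl h))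
            · exact Or.inl (Or.inr (Or.inr (Or.inl h)))
          · exact Or.inr h
      by_cases hh : (stars n m fun _ _ => False).Adj i j ∨ i = j
      · rw [if_pos hh, if_pos (e1.2 hh), sub_self]
      · rw [if_neg hh, if_neg (fun h => hh (e1.1 h)), sub_self]

/-- **Main theorem.** A linear one-round protocol over `F_p` with `k` field elements per message
solves P4-INDUCED SUBGRAPH on `n` vertices only if `n ≤ 4 k (p - 1) + 3`. -/
theorem result (p : ℕ) [Fact p.Prime] (n k : ℕ) (α : Fin n → Fin n → Fin k → ZMod p)
    (g : (Fin n → Fin k → ZMod p) → Prop) (h : Solves α g) : n ≤ 4 * k * (p - 1) + 3 := by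
  by_contra hcon
  push Not at hcon
  obtain ⟨m, hm, hn⟩ : ∃ m, 2 * m + 2 ≤ n ∧ 2 * k * (p - 1) < m := by
    refine ⟨(n - 2) / 2, by omega, ?_⟩
    have : 4 * k * (p - 1) = 2 * (2 * k * (p - 1)) := by ring
    omega
  obtain ⟨x, ⟨u, v, huv⟩, h1, h2⟩ := exists_invisible (p := p) hn
    (fun u v c => α ⟨u.1, by omega⟩ ⟨m + v.1, by omega⟩ c)
    (fun u v c => α ⟨m + v.1, by omega⟩ ⟨u.1, by omega⟩ c)
  have e := messages_eq hm α x h1 h2
  have ha := h (stars n m fun i j => ∃ (hi : i < m) (hj : j < m), x ⟨i, hi⟩ ⟨j, hj⟩)
  have hb := h (stars n m fun _ _ => False)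
  rw [e] at ha
  exact not_p4 n m (hb.1 (ha.2 (p4 hm u.2 v.2 ⟨u.2, v.2, huv⟩)))

end Pool.Agent.Results.MP_07573f_lc.LinearMessages
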